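import Pool.Agent.U737.CT.Mv
import Pool.Agent.U737.CT.Up

/-!
# Matrix-vector products over a finite field: catalytic memory does not help

The model is a non-uniform randomised algorithm which computes the products of a fixed `n × n`
matrix `M` over a finite field `F` (for instance with two elements) with `m` vectors. It may depend
on `M` in an arbitrary way, so `M` may be preprocessed without any bound, and all computations are
free. The only thing that is counted is the number `T` of the reads of entries of the vectors and of
the writes of entries of the products.

There are two kinds of memory: a clean memory with `s` possible states (nodes), and a *catalytic*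
memory, the possible contents of which are the elements of an arbitrary finite set `Γ`; so its size
is unlimited. It can be used freely, but it is full of foreign data `τ` at the beginning, and `τ`
must be restored at the end. (Buhrman, Cleve, Koucký, Loff and Speelman have shown that a catalytic
memory helps very much in many computations with little clean memory, for instance for iterated
products of matrices.) More generally the contents at the end may be wrong in a certain way: a
relation `E τ τ'` between the contents `τ` at the beginning and the contents `τ'` at the end is
given, and every `τ'` belongs to at most `B` elements `τ`; for instance `E` is the equality and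
`B = 1`, or the contents may differ in at most `e` bits.

(1) For all but a `2 ^ (- ⌊n / 4⌋)` fraction of the matrices `M`: if the programs are right, and
treat the catalytic memory correctly, with probability at least `2 ^ (- π)` for random coins,
random contents `τ` and random vectors, then
`n² m log₂ |F| ≤ 2 ^ 13 * T * (log₂ (s B) + π + log₂ |F|)`. So for `m = n` vectors, as in online
matrix-vector multiplication, time times clean memory is at least of order `n ^ 3`, and time
`O (n ^ (3 - ε))` needs a clean memory of order `n ^ ε`, whatever the size of the catalytic memory
is. It is not required that the products are output online.

(2) For all matrices, and `1 ≤ k ≤ n`, there is a program without catalytic memory with at most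
`(4 n² m + 1) |F| ^ k` nodes and at most `4 n² m / k` reads and writes. So, for a clean memory of
`O (log n m)` bits or more, the least time times clean memory is of the exact order
`n² m log |F|` with and without a catalytic memory.

Proof of (1). Let the vectors be given. From a node and contents of the catalytic memory which occur
in a correct run one can find out the rest of the run, hence the contents at the end, and so there
are at most `B` possible contents at the beginning. The run is cut into pieces with `⌊n / 128⌋`
reads and writes; one of the pieces outputs many entries of the products. A piece is determined by
its first node and contents of the catalytic memory. There are `s |Γ|` possibilities, but for each of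
them and each tuple of vectors only `B` of the `|Γ|` contents at the beginning come in; so the factor
`|Γ|`, which would make a union bound useless, cancels. A fixed piece outputs `K` correct entries with
probability at most `|F| ^ (- K / 16)` (library of the starting result `StackTradeoff`).
-/

set_option autoImplicit false

namespace Pool.Agent.Results.MP_0f1f76_lc.CatalyticMemory

open Pool.Agent.U737.CT
open Pool.Agent.W896.MO (mv)

/-- (1) For all `n`, all but a fraction of `2 ^ (- ⌊n / 4⌋)` of the `n × n` matrices `M` over `F`
(those which are not in `Bad`) have the following property. Let `P r` be programs with a catalytic
memory `Γ` (any finite set), with at most `s` nodes each, such that with probability at least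
`2 ^ (- π)` over a random `r`, random initial contents `τ` and a random `m`-tuple `v` of vectors the
program `P r`, started with `τ`, computes all entries of the products of `M` with the vectors of `v`,
with at most `T` reads and writes, and leaves contents `τ'` with `E τ τ'`; here every `τ'` belongs to
at most `B` elements `τ`. Then `n² m log₂ |F| ≤ 2 ^ 13 * T * (log₂ (s B) + π + log₂ |F|)`.

(2) For all `M` and `1 ≤ k ≤ n` there is a program without catalytic memory (`Γ` has one element)
with at most `(4 n² m + 1) |F| ^ k` nodes and at most `4 n² m / k` reads and writes which is always
right. -/
theorem result {F : Type} [Field F] [Fintype F] (n : ℕ) :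
    (∃ Bad : Set (Fin n → Fin n → F),
      Nat.card Bad * 2 ^ (n / 4) ≤ Fintype.card F ^ (n * n) ∧
      ∀ M, M ∉ Bad → ∀ (m T π s B : ℕ) (Γ R : Type) [Fintype Γ] [Nonempty Γ] [Fintype R]
        [Nonempty R] (E : Γ → Γ → Prop) (P : R → Prog (Fin m × Fin n) (Fin m × Fin n) F Γ),
        (∀ r, Fintype.card (P r).Node ≤ s) → (∀ τ', Nat.card {τ // E τ τ'} ≤ B) →
        Nat.card R * (Nat.card Γ * Fintype.card F ^ (n * m)) ≤ 2 ^ π *
          Nat.card {u : R × (Γ × (Fin m × Fin n → F)) //
            (P u.1).Computes E T u.2.1 u.2.2 (mv M u.2.2)} →
        (n : ℝ) ^ 2 * m * Real.logb 2 (Fintype.card F) ≤
          2 ^ 13 * T * (Real.logb 2 (s * B) + π + Real.logb 2 (Fintype.card F))) ∧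
    ∀ (m k : ℕ), 1 ≤ k → k ≤ n → ∀ M : Fin n → Fin n → F,
      ∃ P : Prog (Fin m × Fin n) (Fin m × Fin n) F Unit,
        Fintype.card P.Node ≤ (4 * n ^ 2 * m + 1) * Fintype.card F ^ k ∧
        ∃ T : ℕ, T * k ≤ 4 * n ^ 2 * m ∧ ∀ v, P.Computes Eq T () v (mv M v) :=
  ⟨mv_main n, fun m k hk hkn M => mv_upper m k hk hkn M⟩

end Pool.Agent.Results.MP_0f1f76_lc.CatalyticMemory
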