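import Mathlib
import Pool.Agent.U286.LY.Mv

/-!
# Matrix-vector products over a finite field by circuits laid out in a lattice

Circuits (`Net`) over a finite field `F` (for instance with two elements) which compute the products
of a fixed `n × n` matrix `M` with `m` vectors: the gates have values in `F`, compute arbitrary
functions and may have any fan-in. The circuit may depend on `M` in an arbitrary way (so `M` may be
preprocessed without any bound), and it sees all `m` vectors at the same time. The entries of the
vectors are not placed: they can be read everywhere, as often as one likes; the number `r` of the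
wires from entries to gates (the reads) is counted.

The circuit is laid out in a host graph of cells (`Layout`): every gate (with the wires that leave
it, if one likes) occupies a nonempty connected region of cells, every cell belongs to at most `c`
regions, and if there is a wire between two gates then their regions meet or touch. In other words,
the graph of the gates is a minor of the strong product of a host graph with `v` cells and the
complete graph with `c` vertices.

1. For host graphs in which every set of `n` cells is divided by at most `K n ^ α` of them into parts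
   with at most `θ n` cells, and all but a `2 ^ (- ⌊n / 4⌋)` fraction of the matrices `M`: if random
   circuits with at most `r` reads that are laid out with load `c` on `v` cells compute the products
   with `m` random vectors with probability at least `|F| ^ (- π)`, then
   `n ^ (2 - α) m ≤ C (π + 1) c (r + n) ^ (1 - α) (v + n m) ^ α`.
2. For the `D`-dimensional lattice `α = 1 - 1 / D`. So circuits of fan-in `κ` for `n` vectors need
   volume at least `n ^ (2 + 1 / D) / (C_D c² (κ + 1))`, for instance of order `n ^ (7/3)` in three
   dimensions (even if they see all vectors).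
3. For all matrices there is a circuit with `n ^ 2 m` reads which has a layout of load `1` on `n m`
   cells; so the inequality in 1 is sharp for some values of the parameters, up to the constant.

The starting result `TreewidthTimesReads` (`n ^ 2 m ≤ 2 ^ 14 (t + 1 + π) (r + n)` for treewidth `t`)
gives only `r v ^ α ≥ c n ^ 2 m`, which is `v ≥ n ^ (9/5)` for `D = 3`, `m = n` and `r` of order `v`,
less than the trivial bound `n ^ 2`. The rank property of most matrices is that of this result, and
the lemma on circuits that are divided into pieces (`U514.PD.mv_net3`) is that of the hand-in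
`CrossingNumber` (planar drawings with crossings). New is the geometric part, found for
`MP_885423_lc.LatticeLayouts`: separators of finite sets of points of a lattice (`hasSep_lattice`),
arbitrary weights (`HasSep.weighted`), and the division of layouts into `O (v / s + r / w + 1)` pieces
with at most `w` reads and `O (c s ^ α)` boundary gates (`division`, `exists_pieces`).
-/

set_option autoImplicit false

namespace Pool.Agent.Results.MP_0f1f76_lc.LatticeLayouts

open Pool.Agent.Y631.Tr Pool.Agent.U286.LY

/-- The products of the matrix `M` with the vectors `v 1, ..., v m`: the entry `i` of the product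
with the vector `v j` is the entry `(j, i)`. -/
def mv {F : Type} [Field F] {n m : ℕ} (M : Fin n → Fin n → F) (v : Fin m × Fin n → F) :
    Fin m × Fin n → F :=
  fun o => ∑ k, M o.2 k * v (o.1, k)

/-- All but a fraction of `2 ^ (- ⌊n / 4⌋)` of the `n × n` matrices over `F` have the property
`P`. -/
def Most {F : Type} [Fintype F] {n : ℕ} (P : (Fin n → Fin n → F) → Prop) : Prop :=
  ∃ Bad : Set (Fin n → Fin n → F), Nat.card Bad * 2 ^ (n / 4) ≤ Fintype.card F ^ (n * n) ∧
    ∀ M, M ∉ Bad → P M

theorem most_of {F : Type} [Field F] [Fintype F] {n : ℕ} (hn : 32 ≤ n)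
    {P : (Fin n → Fin n → F) → Prop}
    (h : ∀ [DecidableEq F], ∀ M, Pool.Agent.W896.MO.LG M → P M) : Most P := by
  classical
  refine ⟨{M | ¬ Pool.Agent.W896.MO.LG M}, ?_, ?_⟩
  · have h1 := Pool.Agent.W896.MO.bad_count (F := F) (n := n) (by omega)
    refine le_trans (le_of_eq ?_) h1
    congr 1
    rw [Nat.card_eq_fintype_card]
    rw [Fintype.card_ofFinset]
    congr 1
  · intro M hM
    apply h
    by_contra h1
    exact hM h1

/-- (1) Let `0 ≤ K`, `0 < α < 1` and `0 ≤ θ < 1`. There is a constant `C₀` such that for every finite
field `F` and `n ≥ 32` most `n × n` matrices `M` over `F` have this property: let `C i` be circuits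
with at most `r` reads, which are laid out, with load at most `c`, on at most `v` cells of host
graphs with separators of size `K n ^ α`. If with probability at least `|F| ^ (- π)` over a random `i`
and a random `m`-tuple `v` of vectors the circuit `C i` computes all entries of the products of `M`
with the vectors of `v`, then
`n ^ (2 - α) m ≤ C₀ (π + 1) c (r + n) ^ (1 - α) (v + n m) ^ α`.

(2) Let `D ≥ 2`. There is a constant `C₁` such that for every finite field `F` and `n ≥ 32` most
`n × n` matrices `M` over `F` have this property: if `(C₁ c² (κ + 1)) ^ D < n`, and a circuit of fan-in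
at most `κ` computes the products of `M` with all `n`-tuples of vectors and is laid out, with load
at most `c`, on the finite set `J` of cells of the `D`-dimensional lattice, then
`n ^ (2 D + 1) ≤ (C₁ c² (κ + 1) |J|) ^ D`.

(3) For all `M` there is a circuit with `m n` gates, `n ^ 2 m` reads, which computes the products of
`M` with all `m`-tuples of vectors and has a layout with load `1` on `m n` cells of the
`D`-dimensional lattice. -/
theorem result :
    (∀ K α θ : ℝ, 0 ≤ K → 0 < α → α < 1 → 0 ≤ θ → θ < 1 → ∃ C₀ : ℝ,
      ∀ (F : Type) [Field F] [Fintype F] (n : ℕ), 32 ≤ n → Most fun M : Fin n → Fin n → F =>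
        ∀ (m r c v π : ℕ) (R : Type) [Fintype R] [Nonempty R]
          (C : R → Net (Fin m × Fin n) (Fin m × Fin n) F),
          (∀ i, (C i).reads ≤ r ∧ LaidOut (C i).Joined K α θ v c) →
          Nat.card R * Fintype.card F ^ (n * m) ≤ Fintype.card F ^ π *
            Nat.card {u : R × (Fin m × Fin n → F) // (C u.1).Computes u.2 (mv M u.2)} →
          (n : ℝ) ^ (2 - α) * m ≤ C₀ * ((π + 1) * c) *
            (((r : ℝ) + n) ^ (1 - α) * ((v : ℝ) + n * m) ^ α)) ∧
    (∀ D : ℕ, 2 ≤ D → ∃ C₁ : ℕ,
      ∀ (F : Type) [Field F] [Fintype F] (n : ℕ), 32 ≤ n → Most fun M : Fin n → Fin n → F =>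
        ∀ (κ c : ℕ), (C₁ * (c ^ 2 * (κ + 1))) ^ D < n →
          ∀ (C : Net (Fin n × Fin n) (Fin n × Fin n) F) (J : Finset (Fin D → ℤ))
            (reg : Fin C.size → Finset (Fin D → ℤ)), (∀ g, C.arity g ≤ κ) →
          Layout C.Joined (lattice D) J c reg → (∀ v, C.Computes v (mv M v)) →
          n ^ (2 * D + 1) ≤ (C₁ * (c ^ 2 * (κ + 1)) * J.card) ^ D) ∧
    (∀ (D : ℕ), 1 ≤ D → ∀ (F : Type) [Field F] (n m : ℕ) (M : Fin n → Fin n → F),
      ∃ (C : Net (Fin m × Fin n) (Fin m × Fin n) F) (J : Finset (Fin D → ℤ))
        (reg : Fin C.size → Finset (Fin D → ℤ)), C.size = m * n ∧ C.reads = n ^ 2 * m ∧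
        J.card = m * n ∧ Layout C.Joined (lattice D) J 1 reg ∧ ∀ v, C.Computes v (mv M v)) := by
  refine ⟨?_, ?_, ?_⟩
  · intro K α θ hK hα hα1 hθ0 hθ
    obtain ⟨C₀, -, h⟩ := mv_hosts hK hα hα1 hθ0 hθ
    exact ⟨C₀, fun F _ _ n hn => most_of hn fun M hM m r c v π R _ _ C hC hc =>
      h F n hn M hM m r c v π R C hC hc⟩
  · intro D hD
    obtain ⟨C₁, h⟩ := mv_lattice hD
    exact ⟨C₁, fun F _ _ n hn => most_of hn fun M hM κ c hnc C J reg hκ hL hC =>
      h F n hn M hM κ c hnc C J reg hκ hL hC⟩
  · intro D hD F _ n m M
    obtain ⟨h1, h2, -, h4⟩ := Pool.Agent.U514.PD.direct_spec n m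
      (fun i (u : Fin n → F) => ∑ k, M i k * u k)
    obtain ⟨J, reg, hJ, hL⟩ := layout_of_no_edges (D := D) hD
      (E := (Pool.Agent.U514.PD.direct n m (fun i (u : Fin n → F) => ∑ k, M i k * u k)).Joined) (by
        rintro a b ⟨x, hx⟩
        have hx' : (Sum.inl ((finProdFinEquiv.symm b).1, x) : (Fin m × Fin n) ⊕ Fin (m * n)) =
          Sum.inr a := hx
        simp at hx')
    exact ⟨_, J, reg, h1, h2, hJ.trans h1, hL, fun v => h4 v⟩

end Pool.Agent.Results.MP_0f1f76_lc.LatticeLayouts
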