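import Mathlib
import Pool.Agent.U514.MU.Mv

/-!
# Matrix-vector products over a finite field: fast circuits contain every graph as a minor

Circuits (`Net`) over a finite field `F` (for instance with two elements) which compute the products
of a fixed `n × n` matrix `M` with `m` vectors: the gates have values in `F`, compute arbitrary
functions and may have any fan-in. The circuit may depend on `M` in an arbitrary way (so `M` may be
preprocessed without any bound), and it sees all `m` vectors at the same time. The graph of the gates
(`gateGraph`) has the gates as vertices and the wires between gates as edges; the inputs are deleted,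
so an entry of a vector can be read everywhere, as often as one likes.

`HasMinor G H d`: there are pairwise disjoint sets of vertices of `G`, one for each vertex of `H`,
each with a centre from which it can be reached by walks of length at most `d` inside of the set,
and an edge of `G` between the sets of adjacent vertices of `H`. `Universal G μ d`: this holds for
EVERY graph `H` with at most `μ` vertices and at most `μ` edges.

For all but a `2 ^ (- ⌊n / 4⌋)` fraction of the matrices `M`:

1. Random circuits with at most `r` reads and `g` gates which compute the products with `m` random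
   vectors with probability at least `|F| ^ (- π)` satisfy
   `n ^ 3 m ^ 2 ≤ 2 ^ 63 μ (log g + 1) (π + 1) (r + n) (g + n m)`, unless the graph of the gates of
   one of them is universal for `μ` edges (with radius about `√(g log g / μ)`).
2. So circuits of bounded fan-in with `n ^ (5/2 - δ)` gates for `n` vectors contain every graph with
   at most `n ^ (2 δ - ε)` vertices and edges as a minor, with branch sets of radius at most
   `n ^ ((5 - 6 δ) / 4 + ε)`. In particular (`δ` small) circuits whose graphs of gates do not contain
   one fixed graph as a minor, such as all graphs of bounded genus, need `n ^ (5/2 - ε)` gates, also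
   if they see all vectors; and if `n` vectors are multiplied with `n ^ (2 + o(1))` gates (`δ = 1/2`;
   the exponent of matrix multiplication is two) then the circuits contain every graph with
   `n ^ (1 - ε)` edges.

The rank property of most matrices is the one of the starting result `TreewidthTimesReads`
(`Pool.Agent.W896.MO.rows_count`, `bad_count`). New is the theorem that a graph `G` with at most
`2 ^ t` vertices has balanced separators of `|U| / ℓ + |V(H)| + 4 ℓ t |E(H)|` vertices of all its sets
`U` of vertices, unless it contains `H` as a minor with branch sets of radius at most `2 ℓ t`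
(`Pool.Agent.U514.MU.exists_sep`; for complete graphs `H` this is the theorem of Plotkin, Rao and
Smith, 1994), and the division of graphs with such separators into pieces with small boundary and
few reads (`Pool.Agent.U514.MU.division`). They have been found for
`MP_885423_lc.MinorUniversality`. A piece with `K` outputs, boundary `q` and at most `n / 32` reads is
right with probability at most about `|F| ^ (q - K / 16)`.
-/

set_option autoImplicit false

namespace Pool.Agent.Results.MP_0f1f76_lc.MinorUniversality

open Pool.Agent.Y631.Tr Pool.Agent.U514.MU
open Pool.Agent.U514.PD (gateGraph)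

/-- The products of the matrix `M` with the vectors `v 1, ..., v m`: the entry `i` of the product
with the vector `v j` is the entry `(j, i)`. -/
def mv {F : Type} [Field F] {n m : ℕ} (M : Fin n → Fin n → F) (v : Fin m × Fin n → F) :
    Fin m × Fin n → F :=
  fun o => ∑ k, M o.2 k * v (o.1, k)

/-- Let `F` be a finite field. For each `n` all but a fraction of `2 ^ (- ⌊n / 4⌋)` of the `n × n`
matrices `M` over `F` (those which are not in `Bad n`) have the following properties.

(1) Let `n ≥ 32`, `μ ≥ 1`, `4 (⌊log₂ g⌋ + 1) g ≤ μ d ^ 2` and
`2 ^ 63 μ (⌊log₂ g⌋ + 1) (π + 1) (r + n) (g + n m) < n ^ 3 m ^ 2`. Let `C i` be circuits with at most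
`r` reads and at most `g` gates. If with probability at least `|F| ^ (- π)` over a random `i` and a
random `m`-tuple `v` of vectors the circuit `C i` computes all entries of the products of `M` with the
vectors of `v`, then the graph of the gates of one of the circuits contains every graph `H` with at
most `μ` vertices and at most `μ` edges as a minor with branch sets of radius at most `d`.

(2) Let `κ` and `0 < ε ≤ δ ≤ 1/2`, and let `n` be large. If a circuit of fan-in at most `κ` with at
most `n ^ (5/2 - δ)` gates computes the products of `M` with all `n`-tuples of vectors, then the graph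
of its gates contains every graph `H` with at most `n ^ (2 δ - ε)` vertices and at most
`n ^ (2 δ - ε)` edges as a minor with branch sets of radius at most `n ^ ((5 - 6 δ) / 4 + ε)`. -/
theorem result (F : Type) [Field F] [Fintype F] :
    ∃ Bad : (n : ℕ) → Set (Fin n → Fin n → F),
      (∀ n, Nat.card (Bad n) * 2 ^ (n / 4) ≤ Fintype.card F ^ (n * n)) ∧
      (∀ n, 32 ≤ n → ∀ M, M ∉ Bad n → ∀ (m r g π μ d : ℕ) (R : Type) [Fintype R] [Nonempty R]
        (C : R → Net (Fin m × Fin n) (Fin m × Fin n) F), 1 ≤ μ →
        4 * (Nat.log 2 g + 1) * g ≤ μ * d ^ 2 →
        2 ^ 63 * (μ * (Nat.log 2 g + 1) * ((π + 1) * ((r + n) * (g + n * m)))) <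
          n ^ 3 * m ^ 2 →
        (∀ i, (C i).reads ≤ r ∧ (C i).size ≤ g) →
        Nat.card R * Fintype.card F ^ (n * m) ≤ Fintype.card F ^ π *
          Nat.card {u : R × (Fin m × Fin n → F) // (C u.1).Computes u.2 (mv M u.2)} →
        ∃ i, Universal (gateGraph (C i)) μ d) ∧
      ∀ (κ : ℕ) (δ ε : ℝ), 0 < ε → ε ≤ δ → δ ≤ 1 / 2 → ∀ᶠ n : ℕ in Filter.atTop,
        ∀ M, M ∉ Bad n → ∀ C : Net (Fin n × Fin n) (Fin n × Fin n) F, (∀ g, C.arity g ≤ κ) →
        (∀ v, C.Computes v (mv M v)) → (C.size : ℝ) ≤ (n : ℝ) ^ (5 / 2 - δ) →
        ∀ (W : Type) [Fintype W] (H : SimpleGraph W),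
          (Fintype.card W : ℝ) ≤ (n : ℝ) ^ (2 * δ - ε) →
          (H.edgeSet.ncard : ℝ) ≤ (n : ℝ) ^ (2 * δ - ε) →
          HasMinor (gateGraph C) H ⌊(n : ℝ) ^ ((5 - 6 * δ) / 4 + ε)⌋₊ :=
  mv_main F

end Pool.Agent.Results.MP_0f1f76_lc.MinorUniversality
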