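import Mathlib
import Pool.Agent.U514.PD.MvUp
import Pool.Agent.U514.TR.Fixed

/-!
# Matrix-vector products over a finite field: reads times (gates + crossings)

Circuits (`Net`) over a finite field `F` (for instance with two elements) which compute the products
of a fixed `n × n` matrix `M` with `m` vectors: the gates have values in `F`, compute arbitrary
functions and may have any fan-in. The circuit may depend on `M` in an arbitrary way (so `M` may be
preprocessed without any bound), and it sees all `m` vectors at the same time. Three numbers count:
the number `r` of the wires from entries of the vectors to gates (the reads), the number of the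
gates, and the number of crossings in a drawing of the graph of the gates in the plane
(`CrossingsLE`; its edges are the wires between gates, the inputs are deleted, so an entry can be read
at any place of the plane, as often as one likes).

1. For all but a `2 ^ (- ⌊n / 4⌋)` fraction of the matrices `M`: if random circuits with at most `r`
   reads and at most `g` gates and crossings compute the products with `m` random vectors with
   probability at least `|F| ^ (- π)`, then `n ^ 3 m ^ 2 ≤ 2 ^ 61 (π + 1) (r + n) (g + n m)`.
   For these matrices, circuits of fan-in at most `κ` for `n` vectors have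
   `gates + crossings ≥ n ^ (5/2) / (2 ^ 31 √(κ + 1))`. So planar circuits for online matrix-vector
   multiplication have size at least of order `n ^ 2.5` (even if they see all vectors), and
   circuits with `n ^ (2.5 - δ)` gates have at least about `n ^ (2.5 + δ)` crossings.
2. For all matrices there is a circuit without crossings with `n ^ 2 m` reads and `n m` gates; so
   the inequality in 1 is sharp for some values of the parameters, up to the constant.
3. For all fields and all matrices there is a circuit of fan-in two without crossings with
   `O (n ^ 2.996)` gates for the products with `n` vectors; the constant does not depend on the field.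
   So planar circuits of bounded fan-in are truly subcubic if they see all vectors at the same time,
   and their least size for most matrices is between the orders `n ^ 2.5` and `n ^ 2.996`. These are the
   planar arithmetic circuits of `MP_e72dc0_lc.PlanarCircuits`, with the entries of `M` as constants.

The starting result `TreewidthTimesReads` (`n ^ 2 m ≤ 2 ^ 14 (t + 1 + π) (r + n)` for treewidth `t`)
gives only `r √g ≥ c n ^ 2 m` for planar graphs, which is weaker than the trivial bound `n m` for the
number of the gates if `m = n` and `r ≤ κ g`. The rank property of most matrices is that of this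
result (`Pool.Agent.W896.MO.rows_count`, `bad_count`). New is the division of a drawn graph into
`O (g / q ^ 2 + r / w + 1)` pieces with boundaries of size `O (q)` and at most `w` reads
(`Pool.Agent.U514.PD.division`), which has been found for `MP_885423_lc.CrossingNumber`. A piece
with `K` outputs is right with probability at most about `|F| ^ (O (q) - K / 16)` if `w = ⌊n / 32⌋`,
so it has `O (q + π)` outputs.
-/

set_option autoImplicit false

namespace Pool.Agent.Results.MP_0f1f76_lc.PlanarProducts

open Pool.Agent.Y631.Tr Pool.Agent.U514.PD

/-- The products of the matrix `M` with the vectors `v 1, ..., v m`: the entry `i` of the product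
with the vector `v j` is the entry `(j, i)`. -/
def mv {F : Type} [Field F] {n m : ℕ} (M : Fin n → Fin n → F) (v : Fin m × Fin n → F) :
    Fin m × Fin n → F :=
  fun o => ∑ k, M o.2 k * v (o.1, k)

/-- (1) All but a fraction of `2 ^ (- ⌊n / 4⌋)` of the `n × n` matrices `M` over `F` (those which are
not in `Bad`) have the following two properties.
(a) Let `n ≥ 32`, and let `C i` be circuits with at most `r` reads, such that the graph of the gates
can be drawn in the plane with `k` crossings where `gates + k ≤ g`. If with probability at least
`|F| ^ (- π)` over a random `i` and a random `m`-tuple `v` of vectors the circuit `C i` computes all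
entries of the products of `M` with the vectors of `v`, then
`n ^ 3 m ^ 2 ≤ 2 ^ 61 (π + 1) (r + n) (g + n m)`.
(b) If `2 ^ 62 (κ + 1) < n`, and a circuit of fan-in at most `κ`, drawn with at most `k` crossings,
computes the products of `M` with all `n`-tuples of vectors, then
`n ^ 5 ≤ 2 ^ 62 (κ + 1) (gates + k) ^ 2`.
(2) For all `M` there is a circuit with `m n` gates, `n ^ 2 m` reads, which can be drawn without
crossings, and which computes the products of `M` with all `m`-tuples of vectors.
(3) There is a constant `D` such that for all fields `F`, all `n` and all `M` there is a circuit of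
fan-in at most `2` with at most `D n ^ 2.996` gates, which can be drawn without crossings, and which
computes the products of `M` with all `n`-tuples of vectors. -/
theorem result : (∀ (F : Type) [Field F] [Fintype F],
    (∀ n : ℕ, ∃ Bad : Set (Fin n → Fin n → F),
      Nat.card Bad * 2 ^ (n / 4) ≤ Fintype.card F ^ (n * n) ∧
      ∀ M, M ∉ Bad →
        (∀ (m r g π : ℕ) (R : Type) [Fintype R] [Nonempty R]
          (C : R → Net (Fin m × Fin n) (Fin m × Fin n) F), 32 ≤ n →
          (∀ i, (C i).reads ≤ r ∧ ∃ k, CrossingsLE (C i) k ∧ (C i).size + k ≤ g) →
          Nat.card R * Fintype.card F ^ (n * m) ≤ Fintype.card F ^ π *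
            Nat.card {u : R × (Fin m × Fin n → F) // (C u.1).Computes u.2 (mv M u.2)} →
          n ^ 3 * m ^ 2 ≤ 2 ^ 61 * ((π + 1) * ((r + n) * (g + n * m)))) ∧
        ∀ (κ k : ℕ) (C : Net (Fin n × Fin n) (Fin n × Fin n) F), 2 ^ 62 * (κ + 1) < n →
          (∀ g, C.arity g ≤ κ) → CrossingsLE C k → (∀ v, C.Computes v (mv M v)) →
          n ^ 5 ≤ 2 ^ 62 * ((κ + 1) * (C.size + k) ^ 2)) ∧
    (∀ (n m : ℕ) (M : Fin n → Fin n → F), ∃ C : Net (Fin m × Fin n) (Fin m × Fin n) F,
      C.size = m * n ∧ C.reads = n ^ 2 * m ∧ CrossingsLE C 0 ∧ ∀ v, C.Computes v (mv M v))) ∧
    ∃ D : ℝ, ∀ (F : Type) [Field F] (n : ℕ) (M : Fin n → Fin n → F),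
      ∃ C : Net (Fin n × Fin n) (Fin n × Fin n) F, (∀ g, C.arity g ≤ 2) ∧ CrossingsLE C 0 ∧
        (C.size : ℝ) ≤ D * (n : ℝ) ^ (2.996 : ℝ) ∧ ∀ v, C.Computes v (mv M v) :=
  ⟨fun _ _ _ => ⟨fun n => mv_fanin n, fun n m M => mv_direct n m M⟩,
    Pool.Agent.U514.TR.Fx.fixed_circuits⟩

end Pool.Agent.Results.MP_0f1f76_lc.PlanarProducts
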